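import Pool.Agent.Y189.DC.Inv
import Pool.Agent.Q13.KO.Orb
import Pool.Agent.Q13.NS.PairOrb

/-!
Entire curves given by nonlinear functional equations.
-/

set_option autoImplicit false
set_option linter.overlappingInstances false

namespace Pool.Agent.Q13.FE

open Filter Topology Set MvPolynomial
open scoped LinearAlgebra.Projectivization
open Pool.Agent.TH143.EL
open Pool.Agent.TH143.HE (IsPtP)
open Pool.Agent.Y189.DC
open Pool.Agent.W602.GT (coords GeneralType IsForm)
open Pool.Agent.Q13.KO (SubGT ko exists_sub coe_scale eval₂_map_eq)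
open Pool.Agent.TH143.GT (ess_of_coords)

variable {σ : ℂ → ℂ} {N : ℕ}

/-- The functions in the finite set `U` are meromorphic, and their compositions with `σ` are
rational functions, with constant coefficients, of the functions in `U`. -/
structure NBase (σ : ℂ → ℂ) (U : Set (ℂ → ℂ)) : Prop where
  fin : U.Finite
  mero : ∀ u ∈ U, Meromorphic u
  shift : ∀ u ∈ U, ∃ p ∈ Algebra.adjoin ℂ U, ∃ q ∈ Algebra.adjoin ℂ U,
    (¬ ∀ᶠ z in codiscrete ℂ, q z = 0) ∧ ∀ᶠ z in codiscrete ℂ, q z * u (σ z) = p z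

variable {U : Set (ℂ → ℂ)}

theorem cl_FU' (hU : NBase σ U) {a : ℂ → ℂ}
    (ha : a ∈ Algebra.adjoin ℂ U) : ∀ h : Meromorphic a, cl a h ∈ FU U := by
  induction ha using Algebra.adjoin_induction with
  | mem u hu => exact fun h => IntermediateField.subset_adjoin _ _ ⟨u, hu, h, rfl⟩
  | algebraMap c => exact fun h => (FU U).algebraMap_mem c
  | add p q hp' hq' hp hq =>
    intro h
    exact (FU U).add_mem (hp (adj_mero hU.mero hp')) (hq (adj_mero hU.mero hq'))
  | mul p q hp' hq' hp hq =>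
    intro h
    exact (FU U).mul_mem (hp (adj_mero hU.mero hp')) (hq (adj_mero hU.mero hq'))

theorem sM_FU' (hσ : NCE σ) (hU : NBase σ U) : ∀ x ∈ FU U, sM hσ x ∈ FU U := by
  intro x hx
  induction hx using IntermediateField.adjoin_induction with
  | mem x hx =>
    obtain ⟨u, hu, hm, rfl⟩ := hx
    obtain ⟨p, hp, q, hq, hq0, h⟩ := hU.shift u hu
    have hpm := adj_mero hU.mero hp
    have hqm := adj_mero hU.mero hq
    have h1 : cl q hqm ≠ 0 := fun h0 => hq0 (cl_eq_zero.1 h0)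
    have h2 : cl q hqm * sM hσ (cl u hm) = cl p hpm := by
      rw [sM_cl, cl_mul, cl_eq]
      exact h
    have h3 : sM hσ (cl u hm) = cl p hpm / cl q hqm := by
      rw [eq_div_iff h1, ← h2, mul_comm]
    rw [h3]
    exact (FU U).div_mem (cl_FU' hU hp _) (cl_FU' hU hq _)
  | algebraMap y =>
    rw [AlgHom.commutes]
    exact (FU U).algebraMap_mem y
  | add y y' _ _ h1 h2 => rw [map_add]; exact (FU U).add_mem h1 h2
  | inv y _ h1 => rw [map_inv₀]; exact (FU U).inv_mem h1
  | mul y y' _ _ h1 h2 => rw [map_mul]; exact (FU U).mul_mem h1 h2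

theorem FU_ess (hU : NBase σ U) : Algebra.EssFiniteType ℂ (FU U) := by
  classical
  unfold FU
  rw [IntermediateField.essFiniteType_iff]
  have hfin : {x : MK | ∃ u ∈ U, ∃ hu : Meromorphic u, x = cl u hu}.Finite := by
    have h1 : {x : MK | ∃ u ∈ U, ∃ hu : Meromorphic u, x = cl u hu} ⊆
        (fun u : ℂ → ℂ => if hu : Meromorphic u then cl u hu else 0) '' U := by
      rintro x ⟨u, hu, hm, rfl⟩
      exact ⟨u, hu, by simp only [dif_pos hm]⟩
    exact (hU.fin.image _).subset h1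
  exact ⟨hfin.toFinset, by rw [Set.Finite.coe_toFinset]⟩

/-- composition with `σ` on the field generated by `U` -/
noncomputable def sU (hσ : NCE σ) (hU : NBase σ U) : FU U →ₐ[ℂ] FU U :=
  ((sM hσ).comp (FU U).val).codRestrict (FU U).toSubalgebra fun x => sM_FU' hσ hU x x.2

theorem sU_coe (hσ : NCE σ) (hU : NBase σ U) (x : FU U) :
    ((sU hσ hU x : FU U) : MK) = sM hσ (x : MK) := rfl

theorem sU_pow (hσ : NCE σ) (hU : NBase σ U) (k : ℕ) (x : FU U) :
    (((sU hσ hU ^ k) x : FU U) : MK) = (sM hσ ^ k) (x : MK) := by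
  induction k generalizing x with
  | zero => rfl
  | succ k ih =>
    rw [pow_succ, AlgHom.mul_apply, ih, sU_coe, pow_succ, AlgHom.mul_apply]

/-- A nonconstant curve which is invariant under an iterate of `σ`: then `σ` is a translation. -/
theorem trans_of_inv (hσ : NCE σ) (hinf : ∀ k, 0 < k → ∃ z, σ^[k] z ≠ z)
    {f : ℂ → ℙ ℂ (Fin (N + 1) → ℂ)} (hf : HolMap f) (hnc : ∃ z w, f z ≠ f w)
    {h : Fin (N + 1) → ℂ → ℂ} (hm : ∀ j, Meromorphic (h j))
    (hr : ∀ᶠ z in codiscrete ℂ, Rep (f z) fun j => h j z) {k : ℕ} (hk : 0 < k)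
    (hinv : ∀ z, f (σ^[k] z) = f z) :
    ∃ b, b ≠ 0 ∧ (∀ z, σ z = z + b) ∧ ∃ k : ℕ, 0 < k ∧ ∀ z, f (z + k * b) = f z := by
  have h2k : ∀ z, f (σ^[2 * k] z) = f z := by
    intro z
    rw [two_mul, Function.iterate_add_apply, hinv, hinv]
  have key : ∀ p, σ (σ p) = p → False := by
    intro p hp
    have h1 : σ^[2 * k] p = p := by
      rw [Function.iterate_mul]
      have h2 : σ^[2] p = p := hp
      exact Function.iterate_fixed h2 k
    obtain ⟨r, hr0, hrz⟩ := no_fixed hf hm hr hnc (hσ.iter (2 * k)).ent h2k h1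
    obtain ⟨z, hz⟩ := hinf (2 * k * r) (by positivity)
    apply hz
    rw [Function.iterate_mul]
    exact hrz z
  obtain ⟨b, hb, hσb⟩ := translation hσ (fun z hz => key z (by rw [hz, hz])) key
  refine ⟨b, hb, hσb, k, hk, fun z => ?_⟩
  have h1 : ∀ n : ℕ, ∀ z, σ^[n] z = z + n * b := by
    intro n
    induction n with
    | zero => intro z; simp
    | succ n ih =>
      intro z
      rw [Function.iterate_succ_apply, ih, hσb]
      push_cast
      ring
  rw [← h1, hinv]

/-- the invariance of the curve from the invariance of the ratios of the coordinates -/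
theorem inv_of_ratio (hσ : NCE σ) {f : ℂ → ℙ ℂ (Fin (N + 1) → ℂ)} (hf : HolMap f)
    {h : Fin (N + 1) → ℂ → ℂ} (hm : ∀ j, Meromorphic (h j))
    (hr : ∀ᶠ z in codiscrete ℂ, Rep (f z) fun j => h j z) {k : ℕ}
    (hrat : ∀ i j, (sM hσ ^ k) (cl (h i) (hm i)) * cl (h j) (hm j) =
      (sM hσ ^ k) (cl (h j) (hm j)) * cl (h i) (hm i)) (z : ℂ) : f (σ^[k] z) = f z := by
  have h1 : ∀ i j, ∀ᶠ z in codiscrete ℂ, h i (σ^[k] z) * h j z = h j (σ^[k] z) * h i z := by
    intro i j
    have h2 := hrat i j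
    rw [sM_pow, sM_pow, cl_mul, cl_mul, cl_eq] at h2
    exact h2
  have h2 : ∀ᶠ z in codiscrete ℂ, f (σ^[k] z) = f z := by
    have h3 : ∀ᶠ z in codiscrete ℂ, ∀ i j, h i (σ^[k] z) * h j z = h j (σ^[k] z) * h i z :=
      eventually_all.2 fun i => eventually_all.2 fun j => h1 i j
    filter_upwards [h3, hr, (hσ.iter k).pull hr] with z e1 e2 e3
    exact rep_eq' e3 e2 fun i j => e1 i j
  exact holMap_ext' (HolMap.comp hf (hσ.iter k).ent) hf h2 z

/-- values of forms along a curve -/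
theorem val_zero {h : Fin (N + 1) → ℂ → ℂ} (hm : ∀ j, Meromorphic (h j))
    (G : MvPolynomial (Fin (N + 1)) ℂ) :
    aeval (fun j => cl (h j) (hm j)) G = 0 ↔
      ∀ᶠ z in codiscrete ℂ, eval (fun j => h j z) G = 0 := by
  obtain ⟨a, ha⟩ : ∃ a : Fin (N + 1) → MerS, ∀ j, a j = ⟨h j, hm j⟩ := ⟨_, fun _ => rfl⟩
  obtain ⟨A, hA⟩ : ∃ A : MerS, A = aeval a G := ⟨_, rfl⟩
  have h1 := MvPolynomial.comp_aeval_apply (f := a) (Ideal.Quotient.mkₐ ℂ MJ) G
  have h0 : (fun j => cl (h j) (hm j)) = fun i => (Ideal.Quotient.mkₐ ℂ MJ) (a i) := by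
    funext i
    rw [ha]
    rfl
  have h2 : aeval (fun j => cl (h j) (hm j)) G = cl A.1 A.2 := by
    rw [h0, ← h1, hA]
    rfl
  have h3 : ∀ z, A.1 z = eval (fun j => h j z) G := by
    intro z
    have h4 := MvPolynomial.comp_aeval_apply (f := a) (evS z) G
    have h5 : (fun i => evS z (a i)) = fun j => h j z := by
      funext i
      rw [ha]
      rfl
    rw [h5] at h4
    rw [hA]
    exact h4
  rw [h2]
  refine (cl_eq_zero (hf := A.2)).trans ?_
  simp only [h3]

end Pool.Agent.Q13.FE
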