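import Pool.Agent.Q13.FE.Fix

/-!
Entire curves given by nonlinear functional equations in varieties of general type.
-/

set_option autoImplicit false
set_option linter.overlappingInstances false

namespace Pool.Agent.Q13.FE

open Filter Topology Set MvPolynomial
open scoped LinearAlgebra.Projectivization
open Pool.Agent.TH143.EL
open Pool.Agent.TH143.HE (IsPtP)
open Pool.Agent.Y189.DC
open Pool.Agent.W602.GT (coords GeneralType IsForm)
open Pool.Agent.Q13.KO (SubGT ko exists_sub coe_scale eval₂_map_eq)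
open Pool.Agent.TH143.GT (ess_of_coords)

variable {σ : ℂ → ℂ} {N : ℕ} {U : Set (ℂ → ℂ)}

/-- the coordinates of a curve are not all zero -/
theorem coord_ne {f : ℂ → ℙ ℂ (Fin (N + 1) → ℂ)} {h : Fin (N + 1) → ℂ → ℂ}
    (hm : ∀ j, Meromorphic (h j)) (hr : ∀ᶠ z in codiscrete ℂ, Rep (f z) fun j => h j z) :
    ∃ j, cl (h j) (hm j) ≠ 0 := by
  by_contra hcon
  push Not at hcon
  have h1 : ∀ᶠ z in codiscrete ℂ, ∀ j, h j z = 0 :=
    eventually_all.2 fun j => cl_eq_zero.1 (hcon j)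
  obtain ⟨z, h2, h3⟩ := (h1.and hr).exists
  exact h3.1 (funext h2)

/-- **The invariance.** -/
theorem gt_main {I I' : Ideal (MvPolynomial (Fin (N + 1)) ℂ)} (hGT : SubGT (RingHom.id ℂ) I I')
    (hσ : NCE σ) (hU : NBase σ U) {f : ℂ → ℙ ℂ (Fin (N + 1) → ℂ)} (hf : HolMap f)
    (hI : ∀ z, InV I (f z)) (hI' : ∃ z, ¬ InV I' (f z)) {h : Fin (N + 1) → ℂ → ℂ}
    (hh : ∀ j, h j ∈ Algebra.adjoin ℂ U) (hr : ∀ᶠ z in codiscrete ℂ, Rep (f z) fun j => h j z) :
    ∃ k, 0 < k ∧ ∀ z, f (σ^[k] z) = f z := by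
  classical
  have hm : ∀ j, Meromorphic (h j) := fun j => adj_mero hU.mero (hh j)
  obtain ⟨Y, hY⟩ : ∃ Y : Fin (N + 1) → FU U, ∀ j, (Y j : MK) = cl (h j) (hm j) :=
    ⟨fun j => ⟨_, cl_FU' hU (hh j) (hm j)⟩, fun _ => rfl⟩
  have hY0 : Y ≠ 0 := by
    obtain ⟨j, hj⟩ := coord_ne hm hr
    intro h0
    apply hj
    rw [← hY, h0]
    rfl
  obtain ⟨F, y, c, hy0, hgen, hc, hyY⟩ := exists_sub Y hY0
  have hessK : Algebra.EssFiniteType ℂ (FU U) := FU_ess hU
  have hess : Algebra.EssFiniteType ℂ F := ess_of_coords hgen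
  obtain ⟨w, hw⟩ : ∃ w : ℕ, Algebra.trdeg ℂ F = w := Cardinal.lt_aleph0.1 (trdeg_lt_aleph0 ℂ F)
  have hval : ∀ G : MvPolynomial (Fin (N + 1)) ℂ, (∃ d, G.IsHomogeneous d) →
      (aeval y G = 0 ↔ ∀ᶠ z in codiscrete ℂ, eval (fun j => h j z) G = 0) := by
    rintro G ⟨d, hG⟩
    have h1 : aeval (fun j => cl (h j) (hm j)) G = ((aeval Y G : FU U) : MK) := by
      have h2 : (fun j => cl (h j) (hm j)) = fun j => (FU U).val (Y j) :=
        funext fun j => (hY j).symm
      rw [h2]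
      exact (MvPolynomial.comp_aeval_apply (f := Y) (FU U).val G).symm
    rw [← val_zero hm, h1, coe_scale hyY hG]
    constructor
    · intro h0
      rw [h0]
      have h3 : (c ^ d * ((0 : F) : FU U) : FU U) = 0 := mul_zero _
      rw [h3]
      rfl
    · intro h0
      have h3 : c ^ d * ((aeval y G : F) : FU U) = 0 := Subtype.ext h0
      exact Subtype.ext ((mul_eq_zero.1 h3).resolve_left (pow_ne_zero _ hc))
  have hid : ∀ G : MvPolynomial (Fin (N + 1)) ℂ,
      eval₂ ((algebraMap ℂ F).comp (RingHom.id ℂ)) y G = aeval y G := by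
    intro G
    rw [eval₂_map_eq, MvPolynomial.map_id]
  have hper : ∃ k, 0 < k ∧ ∀ z : F, (sU hσ hU ^ k) (F.val z) = F.val z := by
    rcases Nat.eq_zero_or_pos w with hw0 | hw0
    · refine ⟨1, one_pos, fun z => ?_⟩
      have h1 : Algebra.IsAlgebraic ℂ F := by
        rw [← _root_.trdeg_eq_zero_iff, hw, hw0]
        simp
      have h3 : IsAlgebraic ℂ z := h1.isAlgebraic z
      have h4 := IsAlgClosed.degree_eq_one_of_irreducible ℂ (minpoly.irreducible h3.isIntegral)
      obtain ⟨a, ha⟩ := minpoly.mem_range_of_degree_eq_one ℂ _ h4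
      rw [← ha, AlgHom.commutes, AlgHom.commutes]
    · refine ko hw0 (hGT F w y hy0 hgen hw hw0 ?_ ?_) (sU hσ hU) F.val
      · intro G hG hGh
        rw [hid, hval G hGh]
        filter_upwards [hr] with z hz
        exact (inV_iff hz).1 (hI z) G hG hGh
      · intro hcon
        obtain ⟨z1, hz1⟩ := hI'
        unfold InV at hz1
        push Not at hz1
        obtain ⟨G, hG, hGh, hG0⟩ := hz1
        have h0 := hcon G hG hGh
        rw [hid, hval G hGh] at h0
        apply hG0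
        have h2 : InV (Ideal.span {G}) (f z1) := by
          apply inV_of_punct hf
          filter_upwards [codis_ev h0 z1, codis_ev hr z1] with z e1 e2
          rw [inV_iff e2]
          intro G' hG' _
          obtain ⟨c, rfl⟩ := Ideal.mem_span_singleton'.1 hG'
          rw [map_mul, e1, mul_zero]
        exact h2 G (Ideal.mem_span_singleton_self G) hGh
  obtain ⟨k, hk, hper⟩ := hper
  refine ⟨k, hk, inv_of_ratio hσ hf hm hr fun i j => ?_⟩
  have h1 : ∀ i, (sU hσ hU ^ k) (Y i) = (sU hσ hU ^ k) c * (y i : FU U) := by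
    intro i
    rw [hyY, map_mul]
    congr 1
    exact hper (y i)
  have h2 : (sU hσ hU ^ k) (Y i) * Y j = (sU hσ hU ^ k) (Y j) * Y i := by
    rw [h1, h1, hyY i, hyY j]
    ring
  have h3 := congrArg (Subtype.val : FU U → MK) h2
  change (((sU hσ hU ^ k) (Y i) : FU U) : MK) * (Y j : MK) =
    (((sU hσ hU ^ k) (Y j) : FU U) : MK) * (Y i : MK) at h3
  rw [sU_pow, sU_pow, hY, hY] at h3
  exact h3

end Pool.Agent.Q13.FE
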